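import Pool.Agent.Y132.AH.MT

/-!
# The Mumford-Tate conjecture for products with varieties of symplectic type

The varieties are smooth projective varieties over a finitely generated subfield of `ℂ`, `Γ` is the
Galois group, and `W` is the étale cohomology over the algebraic closure with coefficients in an
algebraic closure `K` of `ℚ_ℓ`. By the comparison theorem it is the cohomology of the complex manifolds
with coefficients in the field `K`, which is isomorphic to `ℂ`, so that it has rational Hodge structures
(`HodgeData`: the coefficient automorphisms `1 ⊗ σ` and the Hodge decomposition) and actions of `Γ`
(`GaloisData`). The Mumford-Tate conjecture for the classes on `X` (`MumfordTate`) is the statement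
that the Tate classes on `X` (classes on which a subgroup of finite index of `Γ` acts through a power of
the cyclotomic character) are the linear combinations of the Hodge classes. For all powers of `X`
(`MumfordTateAll`) this is the equality of the Mumford-Tate group of the cohomology of `X` and the
connected component of the `ℓ`-adic monodromy group, if the latter is reductive (the two groups are
then determined by their invariants in the tensor spaces).

Let `X i` be any family, which may be infinite, of odd-dimensional varieties for which homological and
numerical equivalence coincide and whose transcendental cohomology `T i` (the orthogonal complement
of all algebraic classes) is concentrated in the middle degree. We suppose that the Mumford-Tate group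
acts irreducibly on the Lie algebra `sp(T i)` of the skew operators, that the same is true for the
Galois group, that some Galois element has two eigenvalues on `T i` whose quotient is not a root of
unity, and that the representations `sp(T i)` for different `i` are not isomorphic, neither as
representations of the Mumford-Tate group nor as representations of the Galois group. (Examples
are odd-dimensional varieties with large Galois image: curves, hypersurfaces, complete
intersections, Calabi-Yau threefolds.)

Let `Z` be an ARBITRARY variety: nothing is supposed about its cohomology, its cycles, its
Mumford-Tate group or the semisimplicity of the Galois representations.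

**First part.** There is a finite set `B` of indices with `∑_{i ∈ B} dim T i ≤ 2 dim H(Z)` such that
for all products `Z × X i₁ × ... × X i_r` (any factors, any multiplicities) the Mumford-Tate
conjecture holds for the product if and only if it holds for its small partial products: all
factors `X i` are in `B`, and for some degree `m` the numbers `∏ (n i + 1)` (`n i` is the multiplicity
of `X i`) and `∑ dim T i` are at most the Betti number `b_m(Z)`. So for each `Z` the conjecture for all
these products, with all the infinitely many `X i` and all exponents, is a question about
finitely many products, which are bounded explicitly by the Betti numbers. If `X i` is separated from `Z`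
by the slopes of some Frobenius element (`SlopeSep`) and by the Hodge types (`TypeSep`) then `i` is not
in `B`.

**Second part.** If all `X i` are separated from `Z` by slopes and by Hodge types, then the
Mumford-Tate conjecture for all powers of `Z × X i₁ × ... × X i_r` is equivalent to the Mumford-Tate
conjecture for all powers of `Z`. For example `Z` is any product of curves, surfaces and abelian
varieties and the `X i` are threefolds such that `T i` has the Hodge type `(3, 0)` and at one place
(which may depend on `i`) with good reduction of `X i` and `Z` a Frobenius slope greater than `5 / 2`.

For abelian varieties (motives of abelian type) the theorem of Commelin says that the Mumford-Tate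
conjecture for two factors implies it for the product. Here `Z` is arbitrary and the `X i` are usually
not of abelian type.

Proof (`Pool/Agent/Y132`). The Tate classes on a product are given by multilinear maps from the `T i`
to `H(Z)` which are equivariant under a subgroup of finite index. The derivations which
preserve all the equivariant maps form a Lie algebra normalized by `Γ`; by the irreducibility of
`sp(T i)` it is `sp(T i)` on `T i`, these actions for different `i` are independent, and if `sp(T i)` does
not act on `H(Z)` the first fundamental theorem shows that all classes come from smaller products. If
it acts then `sp(T i)` is contained in `End H(Z)`, which gives the bounds, also for the eigenvalues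
of the Frobenius elements. The same arguments are applied to the group generated by the conjugates of
the Hodge torus.
-/

open CategoryTheory AlgebraicGeometry

universe u

namespace Pool.Agent.Results.MP_c1bb77_ag.SymplecticProducts

open Pool.Agent.H914 Pool.Agent.H914.VarClass Pool.Agent.H914.VarClass.Obj Pool.Agent.Y132.AH

variable {k : Type u} [Field k] {𝒱 : VarClass k} {ops : CycleOps 𝒱}

/-- **The Mumford-Tate conjecture for products with varieties of symplectic type.** -/
theorem result (W : WeilCohomology.{u, 0} ops) [IsAlgClosed W.K] (Ψ : HodgeData W) {Γ : Type}
    [Group Γ] (G : GaloisData W Γ) {ι : Type} [DecidableEq ι] (X : ι → 𝒱.Obj)
    (hH : SpFamily Ψ X) (hG : BigFamily G X) (Z : 𝒱.Obj) :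
    (∃ B : Finset ι, ∑ i ∈ B, trDim W (X i) ≤ 2 * totDim W Z ∧
      (∀ i ∈ B, ¬(SlopeSep G (X i) Z ∧ TypeSep Ψ (X i) Z)) ∧
      ∀ L : List ι, MumfordTate Ψ G (prodList X Z L) ↔
        ∀ L' : List ι, L'.Sublist L → SmallDim W X Z B L' →
          MumfordTate Ψ G (prodList X Z L')) ∧
    ((∀ i, SlopeSep G (X i) Z ∧ TypeSep Ψ (X i) Z) → ∀ L : List ι,
      (MumfordTateAll Ψ G (prodList X Z L) ↔ MumfordTateAll Ψ G Z)) :=
  ⟨mt_iff' G Ψ Z hH hG, fun h L => mt_all G Ψ Z hH (bigFamily_ad G (spFamily_odd Ψ hH) hG)
    (fun i => (h i).1) (fun i => (h i).2) L⟩

end Pool.Agent.Results.MP_c1bb77_ag.SymplecticProducts
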